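import Pool.Agent.H87.JA.Main

/-!
# The addressing number of the Johnson graph `J(n, m)` is between `n` and `2 n - 3`

For `2 ≤ m ≤ n - 2` the addressing number `N(J(n, m))` satisfies `n ≤ N(J(n, m)) ≤ 2 n - 3`. So it is
linear in `n`, uniformly in `m`, and it is determined up to a factor less than two.

Upper bound: the distance of `A` and `B` is half of the number of the elements of the symmetric
difference, hence the number of its elements of odd rank; the coordinate `(i, ε)` is used by the sets
`A` for which the number of the elements below `i` has the parity `ε`, and tells whether `i ∈ A`.
Three of these `2 n` coordinates separate nothing.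

Lower bound: in an addressing of length less than `n` the indicator functions of the two symbols in
each coordinate are functions of degree one on the slice, hence dictators, hence every coordinate that
separates two vertices tells whether `l ∈ A` for one `l`. For three elements `i, j, k` the numbers of
the coordinates that tell about them would satisfy `w i + w j = w i + w k = w j + w k = 1`.
-/

namespace Pool.Agent.Results.MP_38fdd6_co.LinearLength

open H87.JA

theorem result : ∀ n m : ℕ, 2 ≤ m → m + 2 ≤ n →
    HasAddressing (johnson n m) (addressingNumber (johnson n m)) ∧
      n ≤ addressingNumber (johnson n m) ∧ addressingNumber (johnson n m) ≤ 2 * n - 3 := by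
  intro n m hm hn
  have hne : {t | HasAddressing (johnson n m) t}.Nonempty := ⟨_, upper (by omega)⟩
  exact ⟨Nat.sInf_mem hne, lower hm hn _ (Nat.sInf_mem hne), Nat.sInf_le (upper (by omega))⟩

end Pool.Agent.Results.MP_38fdd6_co.LinearLength
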